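import Pool.Agent.H242R3.ES.StmtsN

/-! Task `N13` of project H242-ES: orthogonal projection along a unit spacelike vector. -/

set_option autoImplicit false
set_option maxHeartbeats 4000000

open Finset

namespace Pool.Agent.H318R3.ES

open Pool.Agent.H242R3.ES

theorem B_comm {D : ℕ} (x y : LV D) : B x y = B y x := by
  unfold B
  congr 1
  · exact Finset.sum_congr rfl fun i _ => mul_comm _ _
  · exact mul_comm _ _

theorem B_add {D : ℕ} (x y z : LV D) : B (x + y) z = B x z + B y z := by
  unfold B
  simp only [Pi.add_apply, add_mul, Finset.sum_add_distrib]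
  ring

theorem B_smul {D : ℕ} (a : ℝ) (x z : LV D) : B (a • x) z = a * B x z := by
  unfold B
  simp only [Pi.smul_apply, smul_eq_mul, mul_assoc, ← Finset.mul_sum]
  ring

theorem B_sub {D : ℕ} (x y z : LV D) : B (x - y) z = B x z - B y z := by
  unfold B
  simp only [Pi.sub_apply, sub_mul, Finset.sum_sub_distrib]
  ring

theorem B_sub' {D : ℕ} (x y z : LV D) : B z (x - y) = B z x - B z y := by
  rw [B_comm, B_sub, B_comm x z, B_comm y z]

theorem B_smul' {D : ℕ} (a : ℝ) (x z : LV D) : B z (a • x) = a * B z x := by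
  rw [B_comm, B_smul, B_comm x z]

/-- reflection in `u` -/
noncomputable def rf {D : ℕ} (u : LV D) : LV D →ₗ[ℝ] LV D where
  toFun x := x - (2 * B x u / B u u) • u
  map_add' x y := by
    rw [B_add]
    have : 2 * (B x u + B y u) / B u u = 2 * B x u / B u u + 2 * B y u / B u u := by ring
    rw [this, add_smul]
    abel
  map_smul' a x := by
    rw [B_smul, RingHom.id_apply, smul_sub, smul_smul]
    congr 2
    ring

theorem rf_apply {D : ℕ} (u x : LV D) : rf u x = x - (2 * B x u / B u u) • u := rfl

theorem rf_B {D : ℕ} (u : LV D) (hu : B u u ≠ 0) (x y : LV D) : B (rf u x) (rf u y) = B x y := by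
  rw [rf_apply, rf_apply, B_sub, B_sub', B_sub', B_smul, B_smul, B_smul', B_smul', B_comm u y]
  field_simp
  ring

theorem rf_rf {D : ℕ} (u : LV D) (hu : B u u ≠ 0) (x : LV D) : rf u (rf u x) = x := by
  rw [rf_apply u (rf u x), rf_apply u x, B_sub, B_smul]
  have : 2 * (B x u - 2 * B x u / B u u * B u u) / B u u = -(2 * B x u / B u u) := by
    field_simp
    ring
  rw [this, neg_smul]
  abel

/-- last basis vector -/
noncomputable def el (n : ℕ) : LV (n + 1) := Pi.single (some (Fin.last n)) 1

theorem B_el {n : ℕ} (x : LV (n + 1)) : B x (el n) = x (some (Fin.last n)) := by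
  unfold B el
  rw [Finset.sum_eq_single (Fin.last n)]
  · simp
  · intro i _ hi
    rw [Pi.single_eq_of_ne (by simpa using hi), mul_zero]
  · intro h
    exact absurd (Finset.mem_univ _) h

/-- the index embedding -/
def em {n : ℕ} : Option (Fin n) → Option (Fin (n + 1)) := Option.map Fin.castSucc

/-- forgetting the last coordinate -/
noncomputable def rs {n : ℕ} : LV (n + 1) →ₗ[ℝ] LV n where
  toFun x := fun i => x (em i)
  map_add' _ _ := rfl
  map_smul' _ _ := rfl

theorem rs_apply {n : ℕ} (x : LV (n + 1)) (i : Option (Fin n)) : rs x i = x (em i) := rfl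

theorem rs_B {n : ℕ} (x y : LV (n + 1)) :
    B (rs x) (rs y) = B x y - x (some (Fin.last n)) * y (some (Fin.last n)) := by
  unfold B
  rw [Fin.sum_univ_castSucc]
  simp only [rs_apply, em, Option.map_some, Option.map_none]
  ring

theorem rs_zero {n : ℕ} (x : LV (n + 1)) (h : rs x = 0) : x = x (some (Fin.last n)) • el n := by
  funext i
  rw [Pi.smul_apply, smul_eq_mul]
  rcases i with _ | i
  · have h1 := congrFun h none
    simp only [rs_apply, em, Option.map_none, Pi.zero_apply] at h1
    rw [h1, el, Pi.single_eq_of_ne (by simp), mul_zero]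
  · rcases Fin.eq_castSucc_or_eq_last i with ⟨j, rfl⟩ | rfl
    · have h1 := congrFun h (some j)
      simp only [rs_apply, em, Option.map_some, Pi.zero_apply] at h1
      rw [h1, el, Pi.single_eq_of_ne, mul_zero]
      simp only [ne_eq, Option.some.injEq]
      exact Fin.castSucc_ne_last j
    · rw [el, Pi.single_eq_same, mul_one]

theorem rs_el {n : ℕ} : rs (el n) = 0 := by
  funext i
  rw [rs_apply, Pi.zero_apply]
  rcases i with _ | i
  · simp [em, el]
  · simp only [em, Option.map_some, el]
    rw [Pi.single_eq_of_ne]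
    simp only [ne_eq, Option.some.injEq]
    exact Fin.castSucc_ne_last i

theorem rs_surj {n : ℕ} : Function.Surjective (rs : LV (n + 1) →ₗ[ℝ] LV n) := by
  intro w
  refine ⟨fun i => match i with
    | none => w none
    | some i => if h : (i : ℕ) < n then w (some ⟨i, h⟩) else 0, ?_⟩
  funext i
  rw [rs_apply]
  rcases i with _ | i
  · rfl
  · simp [em]

theorem main {n : ℕ} (v : LV (n + 1)) (hv : B v v = 1) (σ : ℝ) (hσ : σ * σ = 1)
    (hne : 1 - σ * B v (el n) ≠ 0) :
    ∃ p : LV (n + 1) →ₗ[ℝ] LV n, Function.Surjective p ∧ LinearMap.ker p = Submodule.span ℝ {v} ∧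
      ∀ x y, B (p x) (p y) = B x y - B x v * B y v := by
  have hee : B (el n) (el n) = 1 := by rw [B_el, el, Pi.single_eq_same]
  set u : LV (n + 1) := v - σ • el n with hu
  have hvu : B v u = 1 - σ * B v (el n) := by rw [hu, B_sub', B_smul', hv]
  have huu : B u u = 2 * (1 - σ * B v (el n)) := by
    have h1 : B (el n) u = B v (el n) - σ := by
      rw [hu, B_sub', B_smul', hee, B_comm (el n) v]
      ring
    have h2 : B u u = B v u - σ * B (el n) u := by
      conv_lhs => rw [hu]
      rw [← hu, B_sub, B_smul]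
    rw [h2, hvu, h1]
    linear_combination hσ
  have hu0 : B u u ≠ 0 := by
    rw [huu]
    exact mul_ne_zero two_ne_zero hne
  have hTv : rf u v = σ • el n := by
    rw [rf_apply, hvu, huu]
    have : 2 * (1 - σ * B v (el n)) / (2 * (1 - σ * B v (el n))) = 1 :=
      div_self (mul_ne_zero two_ne_zero hne)
    rw [this, one_smul, hu]
    abel
  have hTe : rf u (el n) = σ • v := by
    have h1 : rf u (σ • el n) = v := by rw [← hTv, rf_rf u hu0]
    rw [map_smul] at h1
    rw [← h1, smul_smul, hσ, one_smul]
  have hlast : ∀ x, (rf u x) (some (Fin.last n)) = σ * B x v := by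
    intro x
    rw [← B_el (rf u x), ← rf_B u hu0, rf_rf u hu0, hTe, B_smul']
  refine ⟨rs ∘ₗ rf u, ?_, ?_, ?_⟩
  · intro w
    obtain ⟨x, hx⟩ := rs_surj w
    refine ⟨rf u x, ?_⟩
    rw [LinearMap.comp_apply, rf_rf u hu0, hx]
  · ext x
    rw [LinearMap.mem_ker, Submodule.mem_span_singleton, LinearMap.comp_apply]
    constructor
    · intro h
      have h1 := rs_zero _ h
      refine ⟨(rf u x) (some (Fin.last n)) * σ, ?_⟩
      have h2 : rf u (rf u x) = x := rf_rf u hu0 x
      rw [h1, map_smul, hTe, smul_smul] at h2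
      exact h2
    · rintro ⟨a, rfl⟩
      rw [map_smul, map_smul, hTv, map_smul, rs_el, smul_zero, smul_zero]
  · intro x y
    rw [LinearMap.comp_apply, LinearMap.comp_apply, rs_B, rf_B u hu0, hlast, hlast]
    linear_combination (-(B x v * B y v)) * hσ

theorem projV : ProjV := by
  intro n v hv
  by_cases h : B v (el n) = 1
  · exact main v hv (-1) (by norm_num) (by rw [h]; norm_num)
  · refine main v hv 1 (by norm_num) ?_
    rw [one_mul]
    intro h0
    exact h (by linarith)

end Pool.Agent.H318R3.ES
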